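import Pool.Agent.H18.ChromRel

set_option autoImplicit false

namespace Pool.Agent.Results.MP_37c966_co.Distance

open Pool.Agent.H18.ChromRel

/-- The chromatic distance of any two graphs with at least two vertices is at most two. -/
theorem result (a b : ℕ) (ha : 2 ≤ a) (hb : 2 ≤ b)
    (F : SimpleGraph (Fin a)) (G : SimpleGraph (Fin b)) :
    ∃ (m : ℕ) (R : SimpleGraph (Fin m)), 2 ≤ m ∧ Related F R ∧ Related R G := by
  have ha' : 2 ≤ Fintype.card (Fin a) := by simpa using ha
  have hb' : 2 ≤ Fintype.card (Fin b) := by simpa using hb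
  have nt : ∀ n, 2 ≤ n → (⊥ : SimpleGraph (Fin n)) ≠ ⊤ := by
    intro n hn h
    have : (⊤ : SimpleGraph (Fin n)).Adj ⟨0, by omega⟩ ⟨1, by omega⟩ := by simp
    rw [← h] at this; exact this
  by_cases h1 : F ≠ ⊥ ∧ G ≠ ⊤
  · exact two_step F G ha' hb' h1.1 h1.2
  by_cases h2 : G ≠ ⊥ ∧ F ≠ ⊤
  · obtain ⟨m, R, hm, r1, r2⟩ := two_step G F hb' ha' h2.1 h2.2
    exact ⟨m, R, hm, r2.symm, r1.symm⟩
  simp only [not_and_or, not_not] at h1 h2
  rcases h1 with rfl | rfl <;> rcases h2 with h2 | h2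
  · subst h2
    exact ⟨2, ⊤, le_rfl, related_bot ha', (related_bot hb').symm⟩
  · exact absurd h2 (nt a ha)
  · exact absurd h2.symm (nt b hb)
  · subst h2
    refine ⟨2, ⊥, le_rfl, Related.compl ?_, Related.compl ?_⟩
    · simpa using related_bot ha'
    · simpa using (related_bot hb').symm

end Pool.Agent.Results.MP_37c966_co.Distance
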